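import Mathlib

/-!
# A rack bialgebra that is not a Yetter-Drinfel'd rack

In characteristic two we give a six-dimensional rack bialgebra with basis `1, g, a, b, y, m`, where
`1, g, a` are group-like, `Δ(b) = b ⊗ g + 1 ⊗ b`, `Δ(y) = y ⊗ a + a ⊗ y`, `m` is primitive, and
`a ◁ b = y`. If `C` were a Yetter-Drinfel'd rack over `H` then comparing the coproducts of
`q(a) q(b) = q(b) q(a) + q(y)` would give `q(y) ⊗ q(g) q(a) = q(y) ⊗ q(a)`; acting on `a ⊗ m` this
becomes `y ⊗ 0 = y ⊗ m`.
-/

set_option autoImplicit false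

namespace Pool.Agent.Results.MP_abbe90_al.NotYetterDrinfeld

open TensorProduct Coalgebra

/-- A rack bialgebra structure on the coalgebra `C`; `op x y` is `x ◁ y`. -/
structure RackBialgebra (k C : Type*) [Field k] [AddCommGroup C] [Module k C] [Coalgebra k C] where
  /-- The distinguished element `1`. -/
  one : C
  /-- The operation `x ◁ y`. -/
  op : C →ₗ[k] C →ₗ[k] C
  /-- `1` is group-like. -/
  comul_one : comul (R := k) one = one ⊗ₜ[k] one
  /-- `1` is group-like. -/
  counit_one : counit (R := k) one = 1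
  /-- `◁` is compatible with the comultiplications of `C ⊗ C` and of `C`. -/
  comul_op : ∀ x y, comul (R := k) (op x y) = TensorProduct.map₂ op op (comul x) (comul y)
  /-- `ε (x ◁ y) = ε (x) ε (y)`. -/
  counit_op : ∀ x y, counit (R := k) (op x y) = counit (R := k) x * counit (R := k) y
  /-- `(x ◁ y) ◁ z = (x ◁ z₁) ◁ (y ◁ z₂)`. -/
  self_distrib : ∀ x y z, op (op x y) z =
    TensorProduct.lift op (TensorProduct.map (op x) (op y) (comul z))
  /-- `x ◁ 1 = x`. -/
  op_one : ∀ x, op x one = x
  /-- `1 ◁ x = ε (x) 1`. -/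
  one_op : ∀ x, op one x = counit (R := k) x • one

/-- A Yetter-Drinfel'd rack structure over the bialgebra `H` on the rack bialgebra `C`. -/
structure YDRack {k C : Type*} [Field k] [AddCommGroup C] [Module k C] [Coalgebra k C]
    (R : RackBialgebra k C) (H : Type*) [Ring H] [Bialgebra k H] where
  /-- The right action of `H` on `C`. -/
  act : C →ₗ[k] H →ₗ[k] C
  /-- The action is unital. -/
  act_one : ∀ x, act x 1 = x
  /-- The action is associative. -/
  act_mul : ∀ x h h', act (act x h) h' = act x (h * h')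
  /-- `C` is a module coalgebra. -/
  comul_act : ∀ x h, comul (R := k) (act x h) = TensorProduct.map₂ act act (comul x) (comul h)
  /-- `C` is a module coalgebra. -/
  counit_act : ∀ x h, counit (R := k) (act x h) = counit (R := k) x * counit (R := k) h
  /-- The morphism `q` of coalgebras. -/
  q : C →ₗc[k] H
  /-- `q (1) = 1`. -/
  q_one : q R.one = 1
  /-- `a ◁ b = a · q (b)`. -/
  op_eq : ∀ a b, R.op a b = act a (q b)
  /-- `h₁ q (a · h₂) = q (a) h`. -/
  yd : ∀ (h : H) (a : C), LinearMap.mul' k H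
    (TensorProduct.map LinearMap.id (q.toLinearMap ∘ₗ act a) (comul h)) = q a * h

universe u v

section construction

variable (k : Type u) [Field k]

/-- The underlying space. -/
def C := Fin 6 → k

noncomputable instance : AddCommGroup (C k) := inferInstanceAs (AddCommGroup (Fin 6 → k))

noncomputable instance : Module k (C k) := inferInstanceAs (Module k (Fin 6 → k))

/-- The basis. -/
noncomputable def e : Module.Basis (Fin 6) k (C k) := Pi.basisFun k (Fin 6)

/-- The comultiplication. -/
noncomputable def Δ : C k →ₗ[k] C k ⊗[k] C k := (e k).constr k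
  ![e k 0 ⊗ₜ e k 0, e k 1 ⊗ₜ e k 1, e k 2 ⊗ₜ e k 2, e k 3 ⊗ₜ e k 1 + e k 0 ⊗ₜ e k 3,
    e k 4 ⊗ₜ e k 2 + e k 2 ⊗ₜ e k 4, e k 5 ⊗ₜ e k 0 + e k 0 ⊗ₜ e k 5]

/-- The counit. -/
noncomputable def ε : C k →ₗ[k] k := (e k).constr k ![1, 1, 1, 0, 0, 0]

theorem Δ0 : Δ k (e k 0) = e k 0 ⊗ₜ e k 0 := by rw [Δ, Module.Basis.constr_basis]; rfl
theorem Δ1 : Δ k (e k 1) = e k 1 ⊗ₜ e k 1 := by rw [Δ, Module.Basis.constr_basis]; rfl
theorem Δ2 : Δ k (e k 2) = e k 2 ⊗ₜ e k 2 := by rw [Δ, Module.Basis.constr_basis]; rfl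
theorem Δ3 : Δ k (e k 3) = e k 3 ⊗ₜ e k 1 + e k 0 ⊗ₜ e k 3 := by
  rw [Δ, Module.Basis.constr_basis]; rfl
theorem Δ4 : Δ k (e k 4) = e k 4 ⊗ₜ e k 2 + e k 2 ⊗ₜ e k 4 := by
  rw [Δ, Module.Basis.constr_basis]; rfl
theorem Δ5 : Δ k (e k 5) = e k 5 ⊗ₜ e k 0 + e k 0 ⊗ₜ e k 5 := by
  rw [Δ, Module.Basis.constr_basis]; rfl

theorem ε0 : ε k (e k 0) = 1 := by rw [ε, Module.Basis.constr_basis]; rfl
theorem ε1 : ε k (e k 1) = 1 := by rw [ε, Module.Basis.constr_basis]; rfl
theorem ε2 : ε k (e k 2) = 1 := by rw [ε, Module.Basis.constr_basis]; rfl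
theorem ε3 : ε k (e k 3) = 0 := by rw [ε, Module.Basis.constr_basis]; rfl
theorem ε4 : ε k (e k 4) = 0 := by rw [ε, Module.Basis.constr_basis]; rfl
theorem ε5 : ε k (e k 5) = 0 := by rw [ε, Module.Basis.constr_basis]; rfl

/-- The coalgebra structure. -/
noncomputable abbrev coalg : Coalgebra k (C k) where
  comul := Δ k
  counit := ε k
  coassoc := by
    apply (e k).ext
    intro i
    fin_cases i
    all_goals
      simp only [Fin.mk_zero, Fin.mk_one, Fin.reduceFinMk, LinearMap.comp_apply, Δ0, Δ1, Δ2, Δ3, Δ4,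
        Δ5, map_add,
        LinearMap.rTensor_tmul, LinearMap.lTensor_tmul, add_tmul, tmul_add, LinearEquiv.coe_coe,
        TensorProduct.assoc_tmul, Fin.isValue]
    all_goals abel
  rTensor_counit_comp_comul := by
    apply (e k).ext
    intro i
    fin_cases i
    all_goals
      simp [Δ0, Δ1, Δ2, Δ3, Δ4, Δ5, ε0, ε1, ε2, ε3, ε4, ε5]
  lTensor_counit_comp_comul := by
    apply (e k).ext
    intro i
    fin_cases i
    all_goals
      simp [Δ0, Δ1, Δ2, Δ3, Δ4, Δ5, ε0, ε1, ε2, ε3, ε4, ε5]

/-- The multiplication table of `◁`. -/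
noncomputable def T : Fin 6 → Fin 6 → C k :=
  ![![e k 0, e k 0, e k 0, 0, 0, 0],
    ![e k 1, e k 1, e k 1, 0, 0, 0],
    ![e k 2, e k 2, e k 2, e k 4, e k 4, 0],
    ![e k 3, e k 3, 0, 0, 0, 0],
    ![e k 4, e k 4, 0, 0, 0, 0],
    ![e k 5, 0, e k 5, 0, 0, 0]]

/-- The operation `◁`. -/
noncomputable def op : C k →ₗ[k] C k →ₗ[k] C k :=
  (e k).constr k fun i => (e k).constr k (T k i)

theorem op_e (i j : Fin 6) : op k (e k i) (e k j) = T k i j := by
  rw [op, Module.Basis.constr_basis, Module.Basis.constr_basis]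

theorem ind {P : C k → Prop} (hadd : ∀ x y, P x → P y → P (x + y))
    (hsmul : ∀ (c : k) x, P x → P (c • x)) (he : ∀ i, P (e k i)) (x : C k) : P x := by
  have hx : x ∈ Submodule.span k (Set.range (e k)) := by rw [(e k).span_eq]; trivial
  induction hx using Submodule.span_induction with
  | mem x h => obtain ⟨i, rfl⟩ := h; exact he i
  | zero => simpa using hsmul 0 _ (he 0)
  | add x y _ _ hx hy => exact hadd x y hx hy
  | smul a x _ hx => exact hsmul a x hx

theorem T_lin (i j : Fin 6) : T k i j = ![![e k 0, e k 0, e k 0, 0, 0, 0],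
    ![e k 1, e k 1, e k 1, 0, 0, 0],
    ![e k 2, e k 2, e k 2, e k 4, e k 4, 0],
    ![e k 3, e k 3, 0, 0, 0, 0],
    ![e k 4, e k 4, 0, 0, 0, 0],
    ![e k 5, 0, e k 5, 0, 0, 0]] i j := rfl

theorem add_self' [CharP k 2] {M : Type*} [AddCommGroup M] [Module k M] (x : M) : x + x = 0 := by
  rw [← two_smul k x, CharTwo.two_eq_zero, zero_smul]

theorem sd_aux (x y z : C k) : op k (op k x y) z =
    TensorProduct.lift (op k) (TensorProduct.map (op k x) (op k y) (Δ k z)) := by
  induction z using ind k with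
  | hadd z z' hz hz' => rw [map_add, hz, hz', map_add, map_add, map_add]
  | hsmul c z hz => rw [map_smul, hz, map_smul, map_smul, map_smul]
  | he l =>
  induction x using ind k with
  | hadd x x' hx hx' =>
    have h : TensorProduct.map (op k (x + x')) (op k y) =
        TensorProduct.map (op k x) (op k y) + TensorProduct.map (op k x') (op k y) := by
      rw [map_add, TensorProduct.map_add_left]
    rw [map_add, LinearMap.add_apply, map_add, LinearMap.add_apply, hx, hx',
      ← map_add, ← LinearMap.add_apply, ← TensorProduct.map_add_left]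
  | hsmul c x hx =>
    rw [map_smul, LinearMap.smul_apply, map_smul, LinearMap.smul_apply, hx,
      TensorProduct.map_smul_left, LinearMap.smul_apply, map_smul]
  | he i =>
  induction y using ind k with
  | hadd y y' hy hy' =>
    rw [map_add, map_add, LinearMap.add_apply, hy, hy', map_add, TensorProduct.map_add_right,
      LinearMap.add_apply, map_add]
  | hsmul c y hy =>
    rw [map_smul, map_smul, LinearMap.smul_apply, hy, map_smul,
      TensorProduct.map_smul_right, LinearMap.smul_apply, map_smul]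
  | he j =>
  rw [op_e]
  fin_cases l <;> fin_cases i <;> fin_cases j
  all_goals
    simp [Δ0, Δ1, Δ2, Δ3, Δ4, Δ5, op_e, T]

theorem comul_op_aux [CharP k 2] (x y : C k) : Δ k (op k x y) =
    TensorProduct.map₂ (op k) (op k) (Δ k x) (Δ k y) := by
  induction x using ind k with
  | hadd x x' hx hx' => simp only [map_add, LinearMap.add_apply, hx, hx']
  | hsmul c x hx => simp only [map_smul, LinearMap.smul_apply, hx]
  | he i =>
  induction y using ind k with
  | hadd y y' hy hy' => simp only [map_add, hy, hy']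
  | hsmul c y hy => simp only [map_smul, hy]
  | he j =>
  rw [op_e]
  fin_cases i <;> fin_cases j
  all_goals
    simp [Δ0, Δ1, Δ2, Δ3, Δ4, Δ5, op_e, T, add_self' k]

theorem counit_op_aux (x y : C k) : ε k (op k x y) = ε k x * ε k y := by
  induction x using ind k with
  | hadd x x' hx hx' => simp only [map_add, LinearMap.add_apply, hx, hx', add_mul]
  | hsmul c x hx => simp only [map_smul, LinearMap.smul_apply, hx, smul_eq_mul, mul_assoc]
  | he i =>
  induction y using ind k with
  | hadd y y' hy hy' => simp only [map_add, hy, hy', mul_add]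
  | hsmul c y hy => simp only [map_smul, hy, smul_eq_mul, mul_left_comm]
  | he j =>
  rw [op_e]
  fin_cases i <;> fin_cases j
  all_goals
    simp [ε0, ε1, ε2, ε3, ε4, ε5, T]

/-- The rack bialgebra. -/
noncomputable def rack [CharP k 2] : letI := coalg k; RackBialgebra k (C k) :=
  letI := coalg k
  { one := e k 0
    op := op k
    comul_one := Δ0 k
    counit_one := ε0 k
    comul_op := comul_op_aux k
    counit_op := counit_op_aux k
    self_distrib := sd_aux k
    op_one := by
      intro x
      induction x using ind k with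
      | hadd x x' hx hx' => rw [map_add, LinearMap.add_apply, hx, hx']
      | hsmul c x hx => rw [map_smul, LinearMap.smul_apply, hx]
      | he i =>
      rw [op_e]
      fin_cases i <;> simp [T]
    one_op := by
      intro x
      change op k (e k 0) x = ε k x • e k 0
      induction x using ind k with
      | hadd x x' hx hx' => rw [map_add, hx, hx', map_add, add_smul]
      | hsmul c x hx => rw [map_smul, hx, map_smul, smul_eq_mul, mul_smul]
      | he i =>
      rw [op_e]
      fin_cases i <;> simp [T, ε0, ε1, ε2, ε3, ε4, ε5] }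

theorem no_yd [CharP k 2] (H : Type v) [Ring H] [Bialgebra k H] :
    let _ : Coalgebra k (C k) := coalg k
    IsEmpty (YDRack (rack k) H) := by
  intro _
  refine ⟨fun Y => ?_⟩
  have q0 : Y.q (e k 0) = 1 := Y.q_one
  have hΔ : ∀ x : C k, comul (R := k) (Y.q x) =
      TensorProduct.map Y.q.toLinearMap Y.q.toLinearMap (Δ k x) := fun x =>
    (LinearMap.congr_fun Y.q.map_comp_comul x).symm
  have act_e : ∀ i j : Fin 6, Y.act (e k i) (Y.q (e k j)) = T k i j := fun i j => by
    rw [← Y.op_eq]; exact op_e k i j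
  -- the elements G, A, B, Y of H
  have cG : comul (R := k) (Y.q (e k 1)) = Y.q (e k 1) ⊗ₜ Y.q (e k 1) := by
    rw [hΔ, Δ1]; rfl
  have cA : comul (R := k) (Y.q (e k 2)) = Y.q (e k 2) ⊗ₜ Y.q (e k 2) := by
    rw [hΔ, Δ2]; rfl
  have cB : comul (R := k) (Y.q (e k 3)) = Y.q (e k 3) ⊗ₜ Y.q (e k 1) + 1 ⊗ₜ Y.q (e k 3) := by
    rw [hΔ, Δ3, map_add, ← q0]; rfl
  have cY : comul (R := k) (Y.q (e k 4)) =
      Y.q (e k 4) ⊗ₜ Y.q (e k 2) + Y.q (e k 2) ⊗ₜ Y.q (e k 4) := by
    rw [hΔ, Δ4, map_add]; rfl
  have hAG : Y.q (e k 1) * Y.q (e k 2) = Y.q (e k 2) * Y.q (e k 1) := by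
    have h := Y.yd (Y.q (e k 1)) (e k 2)
    rw [cG] at h
    simpa [act_e, T] using h
  have hAB : Y.q (e k 3) * Y.q (e k 2) + Y.q (e k 4) = Y.q (e k 2) * Y.q (e k 3) := by
    have h := Y.yd (Y.q (e k 3)) (e k 2)
    rw [cB] at h
    simpa [act_e, T] using h
  have key : Y.q (e k 4) ⊗ₜ[k] (Y.q (e k 1) * Y.q (e k 2)) = Y.q (e k 4) ⊗ₜ[k] Y.q (e k 2) := by
    have h := congrArg (comul (R := k)) hAB
    rw [map_add, Bialgebra.comul_mul, Bialgebra.comul_mul, cA, cB, cY, add_mul, mul_add,
      Algebra.TensorProduct.tmul_mul_tmul, Algebra.TensorProduct.tmul_mul_tmul,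
      Algebra.TensorProduct.tmul_mul_tmul, Algebra.TensorProduct.tmul_mul_tmul, one_mul, mul_one,
      ← hAB, ← hAG, add_tmul, tmul_add] at h
    linear_combination (norm := abel) -h
  have fin := congrArg (TensorProduct.map (Y.act (e k 2)) (Y.act (e k 5))) key
  rw [TensorProduct.map_tmul, TensorProduct.map_tmul, ← Y.act_mul, act_e, act_e, act_e] at fin
  have fin2 := congrArg (fun t => LinearMap.mul' k k (TensorProduct.map
    ((e k).coord 4) ((e k).coord 5) t)) fin
  simp [T] at fin2

end construction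

/-- `C` is six-dimensional and carries a rack bialgebra structure which cannot be expressed as a
Yetter-Drinfel'd rack over any bialgebra `H`. -/
def HasNonYDRack (k C : Type*) [Field k] [AddCommGroup C] [Module k C] [Coalgebra k C] : Prop :=
  Module.finrank k C = 6 ∧ ∃ R : RackBialgebra k C,
    ∀ (H : Type v) [Ring H] [Bialgebra k H], IsEmpty (YDRack R H)

/-- Over every field of characteristic two there is a (six-dimensional) rack bialgebra which is not a
Yetter-Drinfel'd rack over any bialgebra. -/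
theorem result : ∀ (k : Type u) [Field k] [CharP k 2],
    ∃ (C : Type u) (_ : AddCommGroup C) (_ : Module k C) (_ : Coalgebra k C),
      HasNonYDRack.{v} k C := by
  intro k _ _
  refine ⟨C k, instAddCommGroupC k, instModuleC k, coalg k, ?_, rack k, fun H _ _ => no_yd k H⟩
  rw [Module.finrank_eq_card_basis (e k), Fintype.card_fin]

end Pool.Agent.Results.MP_abbe90_al.NotYetterDrinfeld
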